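import Pool.Agent.W845.TR.Base

set_option autoImplicit false

/-!
# Project TR (MP_985e29_pr): the one bit bound
-/

namespace Pool.Agent.W839.TR

open Pool.Agent.W845.TR

theorem exp_neg_le (x : ℝ) (hx : x ≤ 0) : Real.exp x ≤ 1 + x + x ^ 2 := by
  have h1 : 1 - x ≤ Real.exp (-x) := by
    have := Real.add_one_le_exp (-x)
    linarith
  have h2 : Real.exp x * Real.exp (-x) = 1 := by
    rw [← Real.exp_add]
    simp
  have h3 : 0 < Real.exp x := Real.exp_pos x
  have h4 : Real.exp x * (1 - x) ≤ 1 :=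
    (mul_le_mul_of_nonneg_left h1 h3.le).trans h2.le
  have h5 : (1 : ℝ) ≤ (1 + x + x ^ 2) * (1 - x) := by
    have : 0 ≤ (-x) ^ 3 := pow_nonneg (by linarith) 3
    nlinarith
  have h6 : 0 < 1 - x := by linarith
  exact le_of_mul_le_mul_right (h4.trans h5) h6

theorem exp_pos_le (x : ℝ) (hx : 0 ≤ x) : Real.exp x ≤ 1 + x + x ^ 2 * Real.exp x := by
  have h1 : 1 - x ≤ Real.exp (-x) := by
    have := Real.add_one_le_exp (-x)
    linarith
  have h2 : Real.exp x * Real.exp (-x) = 1 := by
    rw [← Real.exp_add]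
    simp
  have h3 : 0 < Real.exp x := Real.exp_pos x
  have h4 : Real.exp x * (1 - x) ≤ 1 :=
    (mul_le_mul_of_nonneg_left h1 h3.le).trans h2.le
  have h5 : Real.exp x - 1 ≤ x * Real.exp x := by nlinarith
  have h6 : x * (Real.exp x - 1) ≤ x * (x * Real.exp x) := mul_le_mul_of_nonneg_left h5 hx
  nlinarith

theorem kappa : St_KAPPA := by
  intro κ hκ
  set E : ℝ := Real.exp (1 / κ) with hE
  have hE0 : 0 < E := Real.exp_pos _
  have hE4 : 0 < E + 4 := by linarith
  refine ⟨min (1 / 2) (κ / (E + 4)), lt_min (by norm_num) (by positivity), min_le_left _ _, ?_⟩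
  intro p hp hp0 s
  have hp2 : p ≤ 1 / 2 := hp0.trans (min_le_left _ _)
  have hpk : p * (E + 4) ≤ κ := by
    have := hp0.trans (min_le_right _ _)
    rwa [le_div_iff₀ hE4] at this
  have hpE : 0 < p * E := mul_pos hp hE0
  have hq : 0 < 1 - p := by linarith
  rcases le_or_gt 0 s with hs | hs
  · have ha : Real.exp (-(s * p)) ≤ 1 + -(s * p) + (-(s * p)) ^ 2 :=
      exp_neg_le _ (by have := mul_nonneg hs hp.le; linarith)
    rcases le_or_gt (1 / κ) s with h1 | h1
    · have hks : 1 ≤ κ * s := by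
        rw [div_le_iff₀ hκ] at h1
        linarith
      have hs2 : s ≤ κ * s ^ 2 := by nlinarith
      have e1 : Real.exp (s * (1 - p)) ≤ Real.exp s :=
        Real.exp_le_exp.2 (by have := mul_nonneg hs hp.le; nlinarith)
      have e2 : Real.exp (-(s * p)) ≤ Real.exp s :=
        Real.exp_le_exp.2 (by have := mul_nonneg hs hp.le; linarith)
      have e3 : Real.exp s ≤ Real.exp (κ * s ^ 2) := Real.exp_le_exp.2 hs2
      have e4 := mul_le_mul_of_nonneg_left e1 hp.le
      have e5 := mul_le_mul_of_nonneg_left e2 hq.le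
      nlinarith
    · have hb := exp_pos_le (s * (1 - p)) (mul_nonneg hs hq.le)
      have hb2 : Real.exp (s * (1 - p)) ≤ E := by
        refine Real.exp_le_exp.2 ?_
        have := mul_nonneg hs hp.le
        nlinarith
      have hb3 : Real.exp (s * (1 - p)) ≤ 1 + s * (1 - p) + (s * (1 - p)) ^ 2 * E :=
        hb.trans (by
          have := mul_le_mul_of_nonneg_left hb2 (sq_nonneg (s * (1 - p)))
          linarith)
      have e4 := mul_le_mul_of_nonneg_left hb3 hp.le
      have e5 := mul_le_mul_of_nonneg_left ha hq.le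
      have e6 : 1 + κ * s ^ 2 ≤ Real.exp (κ * s ^ 2) := by
        have := Real.add_one_le_exp (κ * s ^ 2)
        linarith
      have e7 : p * (1 - p) ^ 2 * E + (1 - p) * p ^ 2 ≤ κ := by
        have t1 : (1 - p) ^ 2 ≤ 1 := by nlinarith
        have t2 : p * (1 - p) ^ 2 * E ≤ p * E := by nlinarith
        have t3 : (1 - p) * p ^ 2 ≤ p := by nlinarith [sq_nonneg p]
        nlinarith
      have e8 := mul_le_mul_of_nonneg_left e7 (sq_nonneg s)
      nlinarith
  · set x : ℝ := -s with hx
    have hx0 : 0 < x := by rw [hx]; linarith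
    have hsx : s = -x := by rw [hx]; ring
    rw [hsx]
    have ha : Real.exp (-x * (1 - p)) ≤ 1 + -x * (1 - p) + (-x * (1 - p)) ^ 2 :=
      exp_neg_le _ (by nlinarith [mul_pos hx0 hq])
    have hxp : 0 < x * p := mul_pos hx0 hp
    have harg : -(-x * p) = x * p := by ring
    rw [harg]
    rcases le_or_gt 1 (x * p) with h1 | h1
    · have hx1 : 1 ≤ x := by nlinarith
      have hpκ : p ≤ κ := by nlinarith
      have e1 : Real.exp (-x * (1 - p)) ≤ Real.exp (x * p) :=
        Real.exp_le_exp.2 (by nlinarith)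
      have e3 : Real.exp (x * p) ≤ Real.exp (κ * (-x) ^ 2) := by
        refine Real.exp_le_exp.2 ?_
        have t1 : x * p ≤ x * κ := mul_le_mul_of_nonneg_left hpκ hx0.le
        have t2 : x * κ ≤ x * κ * x := le_mul_of_one_le_right (by positivity) hx1
        nlinarith
      have e4 := mul_le_mul_of_nonneg_left e1 hp.le
      nlinarith
    · have hb := exp_pos_le (x * p) hxp.le
      have hb2 : Real.exp (x * p) ≤ 3 := by
        have t1 : Real.exp (x * p) ≤ Real.exp 1 := Real.exp_le_exp.2 h1.le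
        have t2 := Real.exp_one_lt_d9
        linarith
      have hb3 : Real.exp (x * p) ≤ 1 + x * p + (x * p) ^ 2 * 3 :=
        hb.trans (by
          have := mul_le_mul_of_nonneg_left hb2 (sq_nonneg (x * p))
          linarith)
      have e4 := mul_le_mul_of_nonneg_left ha hp.le
      have e5 := mul_le_mul_of_nonneg_left hb3 hq.le
      have e6 : 1 + κ * (-x) ^ 2 ≤ Real.exp (κ * (-x) ^ 2) := by
        have := Real.add_one_le_exp (κ * (-x) ^ 2)
        linarith
      have e7 : p * (1 - p) ^ 2 + (1 - p) * (p ^ 2 * 3) ≤ κ := by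
        have t1 : (1 - p) ^ 2 ≤ 1 := by nlinarith
        have t2 : p * (1 - p) ^ 2 ≤ p := by nlinarith
        have t3 : (1 - p) * (p ^ 2 * 3) ≤ 3 * p := by nlinarith [sq_nonneg p]
        nlinarith
      have e8 := mul_le_mul_of_nonneg_left e7 (sq_nonneg x)
      nlinarith

end Pool.Agent.W839.TR
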